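import Mathlib

/-!
# The cube-in-cube relation fails at every successor cardinal

We prove, with no extra hypotheses, that for every infinite cardinal `κ` the relation
`cic(κ⁺, κ, 2)` fails: there is a colouring `c : κ⁺ × κ⁺ × κ⁺ → 2` which is not constant
on any product `H × I × J` of subsets of `κ⁺` of order type `κ`.

The colouring: fix injections `e b : {x | x < b} → κ` for `b < κ⁺`.  Call an increasing triple
`a < b < g` low if `e g b < e g a` and `e g b < e b a`, and let `c (x, y, z)` say whether the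
sorted triple is low, flipped when the permutation sorting `(x, y, z)` is odd.

Let `H`, `I`, `J` have order type `κ`.  If the suprema of the three sets are not all equal, both
colours appear on `H × I × J` because `e g` takes only fewer than `κ` many values below any
given one.  If they are all equal and only one colour appears, then one gets
`x₀ < y₀ < z₀ < x₁ < y₁ < z₁ < ...` along which `e y₀ x₀ > e z₀ y₀ > e x₁ z₀ > ...` is an infinite
descending sequence of ordinals.
-/

open Cardinal Ordinal Order Set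

namespace Pool.Agent.Results.MP_c1dc0e_lc.CubeInCubeFails

universe u

/-- The cube-in-cube relation `cic(κ, τ, θ)`: for every colouring `c : κ × κ × κ → θ` there are
sets `H, I, J ⊆ κ`, each of order type `τ`, such that `c` is constant on `H × I × J`.
Here the cardinals `κ`, `θ` are represented by the well-ordered types `κ.ord.ToType`,
`θ.ord.ToType` (the set of ordinals below the initial ordinal of the cardinal), and the order type
of a subset is computed for the induced order. -/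
def CubeInCube (κ : Cardinal.{u}) (τ : Ordinal.{u}) (θ : Cardinal.{u}) : Prop :=
  ∀ c : κ.ord.ToType × κ.ord.ToType × κ.ord.ToType → θ.ord.ToType,
    ∃ H I J : Set κ.ord.ToType,
      Ordinal.type (fun a b : H => a < b) = τ ∧
      Ordinal.type (fun a b : I => a < b) = τ ∧
      Ordinal.type (fun a b : J => a < b) = τ ∧
      ∃ t : θ.ord.ToType, ∀ x ∈ H, ∀ y ∈ I, ∀ z ∈ J, c (x, y, z) = t

section Combinatorics

variable {α : Type u} [LinearOrder α] {β : Type u} [LinearOrder β]

/-- The auxiliary relation on increasing triples `a < b < g`: the middle point is enumerated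
by `g` before the lowest point, and before the place at which `b` enumerates the lowest point. -/
def Low (e : α → α → β) (a b g : α) : Prop := e g b < e g a ∧ e g b < e b a

open Classical in
/-- The colouring: `Low` of the sorted triple, flipped for odd orderings. -/
noncomputable def col (e : α → α → β) (x y z : α) : Prop :=
  if x < y ∧ y < z then Low e x y z
  else if y < z ∧ z < x then Low e y z x
  else if z < x ∧ x < y then Low e z x y
  else if x < z ∧ z < y then ¬ Low e x z y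
  else if z < y ∧ y < x then ¬ Low e z y x
  else if y < x ∧ x < z then ¬ Low e y x z
  else False

variable {e : α → α → β}

theorem col_xyz {x y z : α} (h₁ : x < y) (h₂ : y < z) : col e x y z ↔ Low e x y z := by
  simp [col, h₁, h₂]

theorem col_yzx {x y z : α} (h₁ : y < z) (h₂ : z < x) : col e x y z ↔ Low e y z x := by
  simp [col, h₁, h₂, (h₁.trans h₂).not_gt]

theorem col_zxy {x y z : α} (h₁ : z < x) (h₂ : x < y) : col e x y z ↔ Low e z x y := by
  simp [col, h₁, h₂, (h₁.trans h₂).not_gt]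

theorem col_xzy {x y z : α} (h₁ : x < z) (h₂ : z < y) : col e x y z ↔ ¬ Low e x z y := by
  simp [col, h₁, h₂, h₁.not_gt, h₂.not_gt]

theorem col_zyx {x y z : α} (h₁ : z < y) (h₂ : y < x) : col e x y z ↔ ¬ Low e z y x := by
  simp [col, h₁, h₂, h₁.not_gt, h₂.not_gt, (h₁.trans h₂).not_gt]

theorem col_yxz {x y z : α} (h₁ : y < x) (h₂ : x < z) : col e x y z ↔ ¬ Low e y x z := by
  simp [col, h₁, h₂, h₁.not_gt, h₂.not_gt, (h₁.trans h₂).not_gt]

/-- `Mono e H I J v`: on triples of distinct points of `H × I × J` the colouring takes value `v`. -/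
def Mono (e : α → α → β) (H I J : Set α) (v : Prop) : Prop :=
  ∀ x ∈ H, ∀ y ∈ I, ∀ z ∈ J, x ≠ y → y ≠ z → x ≠ z → (col e x y z ↔ v)

theorem col_rot {x y z : α} (h₁ : x ≠ y) (h₂ : y ≠ z) (h₃ : x ≠ z) :
    col e x y z ↔ col e y z x := by
  rcases lt_or_gt_of_ne h₁ with a | a <;> rcases lt_or_gt_of_ne h₂ with b | b <;>
    rcases lt_or_gt_of_ne h₃ with d | d
  · rw [col_xyz a b, col_zxy a b]
  · exact absurd (a.trans b) d.not_gt
  · rw [col_xzy d b, col_zyx d b]
  · rw [col_zxy d a, col_yzx d a]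
  · rw [col_yxz a d, col_xzy a d]
  · rw [col_yzx b d, col_xyz b d]
  · exact absurd (b.trans a) d.not_gt
  · rw [col_zyx b a, col_yxz b a]

theorem col_swap {x y z : α} (h₁ : x ≠ y) (h₂ : y ≠ z) (h₃ : x ≠ z) :
    col e x y z ↔ ¬ col e x z y := by
  rcases lt_or_gt_of_ne h₁ with a | a <;> rcases lt_or_gt_of_ne h₂ with b | b <;>
    rcases lt_or_gt_of_ne h₃ with d | d
  · rw [col_xyz a b, col_xzy a b, not_not]
  · exact absurd (a.trans b) d.not_gt
  · rw [col_xzy d b, col_xyz d b]
  · rw [col_zxy d a, col_yxz d a, not_not]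
  · rw [col_yxz a d, col_zxy a d]
  · rw [col_yzx b d, col_zyx b d, not_not]
  · exact absurd (b.trans a) d.not_gt
  · rw [col_zyx b a, col_yzx b a]

theorem Mono.rot {H I J : Set α} {v : Prop} (h : Mono e H I J v) : Mono e I J H v := by
  intro y hy z hz x hx h₁ h₂ h₃
  rw [← h x hx y hy z hz h₃.symm h₁ h₂.symm]
  exact (col_rot h₃.symm h₁ h₂.symm).symm

theorem Mono.swap {H I J : Set α} {v : Prop} (h : Mono e H I J v) : Mono e H J I (¬ v) := by
  intro x hx z hz y hy h₁ h₂ h₃
  rw [← h x hx y hy z hz h₃ h₂.symm h₁]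
  have := col_swap (e := e) h₁ h₂ h₃
  exact this

/-- Every point of `H` lies strictly below some point of `I`. -/
def Dom (H I : Set α) : Prop := ∀ x ∈ H, ∃ y ∈ I, x < y

/-- The properties of a set of order type `κ` that we use. -/
structure Good (κ : Cardinal.{u}) (H : Set α) : Prop where
  card : κ ≤ #H
  seg : ∀ x ∈ H, #(H ∩ Iic x : Set α) < κ

/-- The property of the enumerations that we use. -/
def Enum (κ : Cardinal.{u}) (e : α → α → β) : Prop :=
  ∀ g : α, ∀ v : β, #({x : α | x < g ∧ e g x ≤ v} : Set α) < κ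

omit [LinearOrder α] in
theorem exists_large {κ : Cardinal.{u}} {S B : Set α}
    (hS : κ ≤ #S) (hB : #B < κ) : ∃ x ∈ S, x ∉ B := by
  by_contra! h
  exact absurd (hS.trans (mk_le_mk_of_subset (show S ⊆ B from h))) hB.not_ge

omit [LinearOrder α] in
theorem card_union_lt {κ : Cardinal.{u}} (hκ : ℵ₀ ≤ κ) {A B : Set α}
    (hA : #A < κ) (hB : #B < κ) : #(A ∪ B : Set α) < κ :=
  (mk_union_le A B).trans_lt (add_lt_of_lt hκ hA hB)

variable {κ : Cardinal.{u}} {H I J : Set α}

theorem Good.nonempty (hκ : ℵ₀ ≤ κ) (hH : Good κ H) : ∃ x, x ∈ H := by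
  obtain ⟨x, hx, -⟩ := exists_large (B := ∅) hH.card (by
    rw [mk_eq_zero]; exact aleph0_pos.trans_le hκ)
  exact ⟨x, hx⟩

theorem Good.exists_gt (hH : Good κ H) {x : α} (hx : x ∈ H) : ∃ x' ∈ H, x < x' := by
  obtain ⟨x', hx', h⟩ := exists_large hH.card (hH.seg x hx)
  refine ⟨x', hx', ?_⟩
  by_contra hc
  exact h ⟨hx', not_lt.1 hc⟩

theorem exists_above (hH : Good κ H) (h : ¬ Dom H I) : ∃ x ∈ H, ∀ y ∈ I, y < x := by
  simp only [Dom, not_forall, not_exists, not_and, not_lt] at h
  obtain ⟨x, hx, h⟩ := h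
  obtain ⟨x', hx', hxx'⟩ := hH.exists_gt hx
  exact ⟨x', hx', fun y hy => (h y hy).trans_lt hxx'⟩

theorem Dom.total (hH : Good κ H) : Dom H I ∨ Dom I H := by
  by_cases h : Dom H I
  · exact Or.inl h
  · obtain ⟨x, hx, hxI⟩ := exists_above hH h
    exact Or.inr fun y hy => ⟨x, hx, hxI y hy⟩

theorem Dom.trans (h₁ : Dom H I) (h₂ : Dom I J) : Dom H J := by
  intro x hx
  obtain ⟨y, hy, hxy⟩ := h₁ x hx
  obtain ⟨z, hz, hyz⟩ := h₂ y hy
  exact ⟨z, hz, hxy.trans hyz⟩

/-- If `H` lies below `b < g`, some point `a` of `H` makes `(a, b, g)` low. -/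
theorem exists_low (hκ : ℵ₀ ≤ κ) (he : Enum κ e) (hH : Good κ H) {b g : α}
    (hb : ∀ x ∈ H, x < b) (hbg : b < g) : ∃ a ∈ H, Low e a b g := by
  obtain ⟨a, ha, h⟩ := exists_large hH.card
    (card_union_lt hκ (he g (e g b)) (he b (e g b)))
  refine ⟨a, ha, ?_, ?_⟩
  · by_contra hc
    exact h (Or.inl ⟨(hb a ha).trans hbg, not_lt.1 hc⟩)
  · by_contra hc
    exact h (Or.inr ⟨hb a ha, not_lt.1 hc⟩)

/-- If `I` lies below `g` and `a < y₁` for some `y₁` in `I`, some `y > a` in `I` makes
`(a, y, g)` not low. -/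
theorem exists_not_low (hκ : ℵ₀ ≤ κ) (he : Enum κ e) (hI : Good κ I) {a g : α}
    (hg : ∀ y ∈ I, y < g) {y₁ : α} (hy₁ : y₁ ∈ I) (hay : a < y₁) :
    ∃ y ∈ I, a < y ∧ ¬ Low e a y g := by
  obtain ⟨y, hy, h⟩ := exists_large hI.card
    (card_union_lt hκ (hI.seg y₁ hy₁) (he g (e g a)))
  refine ⟨y, hy, ?_, ?_⟩
  · by_contra hc
    exact h (Or.inl ⟨hy, (not_lt.1 hc).trans hay.le⟩)
  · intro hl
    exact h (Or.inr ⟨hg y hy, hl.1.le⟩)

/-- The case of three mutually cofinal sets. -/
theorem not_mono_cofinal [WellFoundedLT β] (hHne : ∃ x, x ∈ H)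
    (h₁ : Dom H I) (h₂ : Dom I J) (h₃ : Dom J H) : ¬ Mono e H I J True := by
  intro hm
  have hxyz : ∀ x ∈ H, ∀ y ∈ I, ∀ z ∈ J, x < y → y < z → e z y < e y x := by
    intro x hx y hy z hz a b
    have := (hm x hx y hy z hz a.ne b.ne (a.trans b).ne)
    rw [col_xyz a b] at this
    exact (this.2 trivial).2
  have hyzx : ∀ x ∈ H, ∀ y ∈ I, ∀ z ∈ J, y < z → z < x → e x z < e z y := by
    intro x hx y hy z hz a b
    have := (hm x hx y hy z hz (a.trans b).ne' a.ne b.ne')
    rw [col_yzx a b] at this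
    exact (this.2 trivial).2
  have hzxy : ∀ x ∈ H, ∀ y ∈ I, ∀ z ∈ J, z < x → x < y → e y x < e x z := by
    intro x hx y hy z hz a b
    have := (hm x hx y hy z hz b.ne (a.trans b).ne' a.ne')
    rw [col_zxy a b] at this
    exact (this.2 trivial).2
  have key : ∀ b : β, (∀ x ∈ H, ∀ y ∈ I, x < y → e y x ≠ b) ∧
      (∀ y ∈ I, ∀ z ∈ J, y < z → e z y ≠ b) ∧ (∀ z ∈ J, ∀ x ∈ H, z < x → e x z ≠ b) := by
    intro b
    induction b using WellFoundedLT.induction with
    | ind b ih =>
      refine ⟨?_, ?_, ?_⟩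
      · intro x hx y hy hxy hb
        obtain ⟨z, hz, hyz⟩ := h₂ y hy
        exact (ih _ (hb ▸ hxyz x hx y hy z hz hxy hyz)).2.1 y hy z hz hyz rfl
      · intro y hy z hz hyz hb
        obtain ⟨x, hx, hzx⟩ := h₃ z hz
        exact (ih _ (hb ▸ hyzx x hx y hy z hz hyz hzx)).2.2 z hz x hx hzx rfl
      · intro z hz x hx hzx hb
        obtain ⟨y, hy, hxy⟩ := h₁ x hx
        exact (ih _ (hb ▸ hzxy x hx y hy z hz hzx hxy)).1 x hx y hy hxy rfl
  obtain ⟨x, hx⟩ := hHne
  obtain ⟨y, hy, hxy⟩ := h₁ x hx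
  exact (key _).1 x hx y hy hxy rfl

theorem not_mono_sorted [WellFoundedLT β] (hκ : ℵ₀ ≤ κ) (he : Enum κ e)
    (hH : Good κ H) (hI : Good κ I) (hJ : Good κ J)
    (h₁ : Dom H I) (h₂ : Dom I J) (v : Prop) : ¬ Mono e H I J v := by
  intro hm
  by_cases hJI : Dom J I
  · by_cases hIH : Dom I H
    · -- all three suprema agree
      by_cases hv : v
      · refine not_mono_cofinal (hH.nonempty hκ) h₁ h₂ (hJI.trans hIH) (e := e) ?_
        intro x hx y hy z hz a b c
        simpa [hv] using hm x hx y hy z hz a b c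
      · refine not_mono_cofinal (hH.nonempty hκ) (h₁.trans h₂) hJI hIH (e := e) ?_
        intro x hx y hy z hz a b c
        simpa [hv] using hm.swap x hx y hy z hz a b c
    · -- sup H < sup I = sup J
      obtain ⟨y₀, hy₀, hHy⟩ := exists_above hI hIH
      obtain ⟨z₀, hz₀, hyz⟩ := h₂ y₀ hy₀
      obtain ⟨y₁, hy₁, hzy⟩ := hJI z₀ hz₀
      obtain ⟨x, hx, hlow⟩ := exists_low hκ he hH hHy hyz
      obtain ⟨x', hx', hlow'⟩ := exists_low hκ he hH
        (fun x hx => (hHy x hx).trans hyz) hzy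
      have hv : v := by
        have := hm x hx y₀ hy₀ z₀ hz₀ (hHy x hx).ne hyz.ne ((hHy x hx).trans hyz).ne
        rw [col_xyz (hHy x hx) hyz] at this
        exact this.1 hlow
      have hxz := (hHy x' hx').trans hyz
      have := hm x' hx' y₁ hy₁ z₀ hz₀ (hxz.trans hzy).ne hzy.ne' hxz.ne
      rw [col_xzy hxz hzy] at this
      exact this.2 hv hlow'
  · -- sup I < sup J
    obtain ⟨z, hz, hIz⟩ := exists_above hJ hJI
    have hHz : ∀ x ∈ H, x < z := by
      intro x hx
      obtain ⟨y, hy, hxy⟩ := h₁ x hx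
      exact hxy.trans (hIz y hy)
    obtain ⟨x₀, hx₀⟩ := hH.nonempty hκ
    obtain ⟨y₁, hy₁, hxy₁⟩ := h₁ x₀ hx₀
    obtain ⟨y, hy, hxy, hnl⟩ := exists_not_low hκ he hI hIz hy₁ hxy₁
    have hv : ¬ v := by
      have := hm x₀ hx₀ y hy z hz hxy.ne (hIz y hy).ne (hHz x₀ hx₀).ne
      rw [col_xyz hxy (hIz y hy)] at this
      exact fun hv => hnl (this.2 hv)
    by_cases hIH : Dom I H
    · obtain ⟨y₀, hy₀⟩ := hI.nonempty hκ
      obtain ⟨x₁, hx₁, hyx₁⟩ := hIH y₀ hy₀
      obtain ⟨x, hx, hyx, hnl'⟩ := exists_not_low hκ he hH hHz hx₁ hyx₁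
      have := hm x hx y₀ hy₀ z hz hyx.ne' (hIz y₀ hy₀).ne (hHz x hx).ne
      rw [col_yxz hyx (hHz x hx)] at this
      exact hv (this.1 hnl')
    · obtain ⟨y₀, hy₀, hHy⟩ := exists_above hI hIH
      obtain ⟨x, hx, hlow⟩ := exists_low hκ he hH hHy (hIz y₀ hy₀)
      have := hm x hx y₀ hy₀ z hz (hHy x hx).ne (hIz y₀ hy₀).ne (hHz x hx).ne
      rw [col_xyz (hHy x hx) (hIz y₀ hy₀)] at this
      exact hv (this.1 hlow)

theorem not_mono [WellFoundedLT β] (hκ : ℵ₀ ≤ κ) (he : Enum κ e)
    (hH : Good κ H) (hI : Good κ I) (hJ : Good κ J) (v : Prop) : ¬ Mono e H I J v := by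
  intro hm
  rcases Dom.total (I := I) hH with a | a
  · rcases Dom.total (I := J) hI with b | b
    · exact not_mono_sorted hκ he hH hI hJ a b v hm
    · rcases Dom.total (I := J) hH with c | c
      · exact not_mono_sorted hκ he hH hJ hI c b _ hm.swap
      · exact not_mono_sorted hκ he hJ hH hI c a _ hm.rot.rot
  · rcases Dom.total (I := J) hI with b | b
    · rcases Dom.total (I := J) hH with c | c
      · exact not_mono_sorted hκ he hI hH hJ a c _ hm.rot.swap
      · exact not_mono_sorted hκ he hI hJ hH b c _ hm.rot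
    · exact not_mono_sorted hκ he hJ hI hH b a _ hm.rot.rot.swap

end Combinatorics

theorem good_of_type {α : Type u} [LinearOrder α] [WellFoundedLT α] {κ : Cardinal.{u}}
    (hκ : ℵ₀ ≤ κ) {H : Set α} (hH : Ordinal.type (fun a b : H => a < b) = κ.ord) :
    Good κ H := by
  have hcard : #H = κ := by
    have := congrArg Ordinal.card hH
    rwa [Ordinal.card_type, card_ord] at this
  refine ⟨hcard.ge, fun x hx => ?_⟩
  have h1 : #(Iic (⟨x, hx⟩ : H)) < #H := by
    apply mk_Iic_lt
    · rw [hcard]; exact hH.symm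
    · rw [hcard]; exact hκ
  have h2 : #(H ∩ Iic x : Set α) ≤ #(Iic (⟨x, hx⟩ : H)) := by
    refine mk_le_of_injective (f := fun y => ⟨⟨y.1, y.2.1⟩, y.2.2⟩) ?_
    intro a b hab
    simpa [Subtype.ext_iff] using hab
  exact h2.trans_lt (hcard ▸ h1)

theorem exists_enum {κ : Cardinal.{u}} (hκ : ℵ₀ ≤ κ) :
    ∃ e : (succ κ).ord.ToType → (succ κ).ord.ToType → κ.ord.ToType, Enum κ e := by
  have hne : Nonempty κ.ord.ToType := by
    rw [← mk_ne_zero_iff, mk_ord_toType]
    exact (aleph0_pos.trans_le hκ).ne'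
  have hinj : ∀ g : (succ κ).ord.ToType, ∃ f : (succ κ).ord.ToType → κ.ord.ToType,
      InjOn f (Iio g) := by
    intro g
    have h1 : #(Iio g) < succ κ := by
      simpa using mk_Iio_lt g
    have h2 : #(Iio g) ≤ #κ.ord.ToType := by
      rw [mk_ord_toType]; exact lt_succ_iff.1 h1
    obtain ⟨f⟩ := h2
    classical
    refine ⟨fun x => if h : x ∈ Iio g then f ⟨x, h⟩ else Classical.choice hne, ?_⟩
    intro x hx y hy hxy
    simp only [hx, hy, dite_true] at hxy
    simpa using f.injective hxy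
  choose e he using hinj
  refine ⟨e, fun g v => ?_⟩
  have h1 : #(Iic v) < κ := by
    have := mk_Iic_lt v (by simp) (by simpa using hκ)
    simpa using this
  refine lt_of_le_of_lt ?_ h1
  refine mk_le_of_injective (f := fun x => ⟨e g x.1, x.2.2⟩) ?_
  intro a b hab
  exact Subtype.ext (he g a.2.1 b.2.1 (congrArg Subtype.val hab))

/-- For every infinite cardinal `κ`, the relation `cic(κ⁺, κ, 2)` fails. -/
theorem result : ∀ κ : Cardinal.{u}, ℵ₀ ≤ κ → ¬ CubeInCube (Order.succ κ) κ.ord 2 := by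
  intro κ hκ hcic
  obtain ⟨e, he⟩ := exists_enum hκ
  have hnt : Nontrivial (2 : Cardinal.{u}).ord.ToType := by
    rw [← one_lt_iff_nontrivial, mk_ord_toType]
    exact one_lt_two
  obtain ⟨t₀, t₁, ht⟩ := hnt
  classical
  obtain ⟨H, I, J, hH, hI, hJ, t, hc⟩ :=
    hcic (fun p => if col e p.1 p.2.1 p.2.2 then t₁ else t₀)
  refine not_mono hκ he (good_of_type hκ hH) (good_of_type hκ hI) (good_of_type hκ hJ)
    (t = t₁) ?_
  intro x hx y hy z hz _ _ _
  have := hc x hx y hy z hz
  by_cases h : col e x y z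
  · simp only [h, if_true] at this
    simp [h, this]
  · simp only [h, if_false] at this
    simp only [h, false_iff]
    rw [← this]
    exact ht

end Pool.Agent.Results.MP_c1dc0e_lc.CubeInCubeFails
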